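import Pool.Agent.Q95.FreeCopy2

set_option autoImplicit false

/-!
# MP_48292c_co: `g₀(G)` is not bounded by `C (m / √n + n)`

Let `G` be the complete graph on `t = s ^ 3` vertices together with `s ^ 4 - s ^ 3` further vertices of degree one,
all adjacent to the same vertex. It is connected, has `n = s ^ 4` vertices and `m < s ^ 6 + s ^ 4` edges, so
`m / √n + n ≤ 3 s ^ 4`. But it contains the complete graph on `s ^ 3` vertices, and the first moment method shows
that `g₀` of this complete graph is at least of the order `s ^ (9/2) / √(log s)`, which is larger than every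
multiple of `s ^ 4`. So no constant `C` works in Q1, not even for connected graphs.
-/

namespace Pool.Agent.Results.MP_48292c_co.FailsForConnected

open Finset

/-- `f` maps the edges of the complete graph on `Fin N` (the two-element sets) to disjoint edges. -/
def IsDisjointMap {N : ℕ} (f : Finset (Fin N) → Finset (Fin N)) : Prop :=
  ∀ e, e.card = 2 → (f e).card = 2 ∧ Disjoint e (f e)

/-- The edges of the copy of `G` given by the map `φ` of its vertices. -/
def copyEdges {n N : ℕ} (G : SimpleGraph (Fin n)) (φ : Fin n → Fin N) : Set (Finset (Fin N)) :=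
  {e | ∃ u v, G.Adj u v ∧ e = {φ u, φ v}}

/-- Every map of edges to disjoint edges of the complete graph on `N` vertices has a free copy of `G`. -/
def Good {n : ℕ} (G : SimpleGraph (Fin n)) (N : ℕ) : Prop :=
  ∀ f : Finset (Fin N) → Finset (Fin N), IsDisjointMap f →
    ∃ φ : Fin n → Fin N, Function.Injective φ ∧ ∀ e ∈ copyEdges G φ, f e ∉ copyEdges G φ

/-- `g₀(G)`: the least `N ≥ 4` such that every map of edges to disjoint edges of the complete graph on `N` vertices
has a free copy of `G`. (For `N = 2, 3` there are no such maps and the condition would be vacuous.) -/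
noncomputable def g0 {n : ℕ} (G : SimpleGraph (Fin n)) : ℕ := sInf {N | 4 ≤ N ∧ Good G N}

/-- the complete graph on the vertices `< t` and the edges from `0` to all other vertices -/
def pad (n t : ℕ) : SimpleGraph (Fin n) where
  Adj u v := u ≠ v ∧ ((u.1 < t ∧ v.1 < t) ∨ u.1 = 0 ∨ v.1 = 0)
  symm := ⟨fun u v h => ⟨h.1.symm, by tauto⟩⟩
  loopless := ⟨fun u h => h.1 rfl⟩

lemma pad_connected (n t : ℕ) (hn : 0 < n) : (pad n t).Connected := by
  have : Nonempty (Fin n) := ⟨⟨0, hn⟩⟩
  refine ⟨?_⟩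
  have h0 : ∀ v : Fin n, (pad n t).Reachable ⟨0, hn⟩ v := by
    intro v
    by_cases h : (⟨0, hn⟩ : Fin n) = v
    · rw [h]
    · exact SimpleGraph.Adj.reachable ⟨h, Or.inr (Or.inl rfl)⟩
  intro u v
  exact (h0 u).symm.trans (h0 v)

lemma pad_edges (n t : ℕ) (hn : 0 < n) : (pad n t).edgeSet.ncard ≤ t ^ 2 + n := by
  classical
  have hsub : (pad n t).edgeSet ⊆
      ((((univ.filter fun v : Fin n => v.1 < t) ×ˢ (univ.filter fun v : Fin n => v.1 < t)).image
        (fun p => s(p.1, p.2))) ∪ ((univ : Finset (Fin n)).image fun v => s((⟨0, hn⟩ : Fin n), v)) :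
          Finset (Sym2 (Fin n))) := by
    intro e he
    induction e with
    | _ u v =>
      rw [SimpleGraph.mem_edgeSet] at he
      simp only [coe_union, coe_image, Set.mem_union, Set.mem_image, mem_coe, mem_product, mem_filter,
        mem_univ, true_and, Prod.exists]
      rcases he.2 with ⟨h1, h2⟩ | h | h
      · exact Or.inl ⟨u, v, ⟨h1, h2⟩, rfl⟩
      · exact Or.inr ⟨v, by rw [show u = ⟨0, hn⟩ from Fin.ext h]⟩
      · exact Or.inr ⟨u, by rw [show v = ⟨0, hn⟩ from Fin.ext h, Sym2.eq_swap]⟩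
  refine (Set.ncard_le_ncard hsub (Finset.finite_toSet _)).trans ?_
  rw [Set.ncard_coe_finset]
  refine (card_union_le _ _).trans (Nat.add_le_add ?_ ?_)
  · refine card_image_le.trans ?_
    rw [card_product, sq]
    have h1 : (univ.filter fun v : Fin n => v.1 < t).card ≤ t := by
      have h2 : (univ.filter fun v : Fin n => v.1 < t).image Fin.val ⊆ range t := by
        intro x hx
        obtain ⟨v, hv, rfl⟩ := mem_image.1 hx
        simpa using hv
      have h3 := card_le_card h2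
      rwa [card_range, card_image_of_injective _ Fin.val_injective] at h3
    exact Nat.mul_le_mul h1 h1
  · refine card_image_le.trans ?_
    simp

lemma good_large {n : ℕ} (hn : 4 ≤ n) (G : SimpleGraph (Fin n)) : Good G (8 * n ^ 2) := by
  classical
  intro f hf
  obtain ⟨S, hS, hS2⟩ := Pool.Agent.Q95.FreeCopy.exists_free n hn f hf
  refine ⟨S.orderEmbOfFin hS, (S.orderEmbOfFin hS).injective, ?_⟩
  have hsub : ∀ e ∈ copyEdges G (S.orderEmbOfFin hS), e.card = 2 ∧ e ⊆ S := by
    rintro e ⟨u, v, huv, rfl⟩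
    refine ⟨card_pair fun h => huv.ne ((S.orderEmbOfFin hS).injective h), ?_⟩
    intro x hx
    rw [mem_insert, mem_singleton] at hx
    rcases hx with rfl | rfl <;> exact S.orderEmbOfFin_mem hS _
  intro e he hfe
  exact hS2 e (hsub e he).1 (hsub e he).2 (hsub _ hfe).2

/-- **Q1 is false.** For every constant `C` there is a connected graph `G` (with at least `4` vertices, so without
isolated vertices) with `n` vertices and `m` edges such that `g₀(G) > C (m / √n + n)`. -/
theorem result : ∀ C : ℝ, ∃ n : ℕ, ∃ G : SimpleGraph (Fin n), 4 ≤ n ∧ G.Connected ∧ (∀ v, ∃ w, G.Adj v w) ∧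
    C * ((G.edgeSet.ncard : ℝ) / √n + n) < g0 G := by
  classical
  intro C
  set K : ℝ := max 1 (3 * C) with hK
  have hK1 : 1 ≤ K := le_max_left _ _
  have hKC : 3 * C ≤ K := le_max_right _ _
  obtain ⟨s₀, hs₀⟩ := Pool.Agent.Q95.FreeCopy.numer K hK1
  obtain ⟨s, hs1, hs2⟩ : ∃ s : ℕ, s₀ ≤ s ∧ 2 ≤ s := ⟨max s₀ 2, le_max_left _ _, le_max_right _ _⟩
  have hn16 : 16 ≤ s ^ 4 := by
    calc 16 = 2 ^ 4 := by norm_num
      _ ≤ s ^ 4 := Nat.pow_le_pow_left hs2 4
  have ht8 : 8 ≤ s ^ 3 := by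
    calc 8 = 2 ^ 3 := by norm_num
      _ ≤ s ^ 3 := Nat.pow_le_pow_left hs2 3
  have htn : s ^ 3 ≤ s ^ 4 := Nat.pow_le_pow_right (by omega) (by norm_num)
  refine ⟨s ^ 4, pad (s ^ 4) (s ^ 3), by omega, pad_connected _ _ (by omega), ?_, ?_⟩
  · intro v
    by_cases h : v.1 = 0
    · refine ⟨⟨1, by omega⟩, ?_, Or.inr (Or.inl h)⟩
      intro h2
      rw [h2] at h
      simp at h
    · refine ⟨⟨0, by omega⟩, ?_, Or.inr (Or.inr rfl)⟩
      intro h2
      exact h (by rw [h2])
  -- all admissible `N` are large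
  have hbig : ∀ N : ℕ, 4 ≤ N → Good (pad (s ^ 4) (s ^ 3)) N → K * (s : ℝ) ^ 4 < N := by
    intro N hN hgood
    by_contra hcon
    push Not at hcon
    by_cases hNt : s ^ 3 ≤ N
    · obtain ⟨p, hp1, hp2, hp3⟩ := hs₀ s hs1 N hNt hcon
      obtain ⟨f, hf1, hf2⟩ := Pool.Agent.Q95.FreeCopy.exists_bad N (s ^ 3) hN (by omega) p hp1 hp2 hp3
      obtain ⟨φ, hφ, hfree⟩ := hgood f hf1
      set S : Finset (Fin N) := (univ.filter fun v : Fin (s ^ 4) => v.1 < s ^ 3).image φ with hS
      have hScard : S.card = s ^ 3 := by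
        rw [hS, card_image_of_injective _ hφ]
        have h1 : (univ.filter fun v : Fin (s ^ 4) => v.1 < s ^ 3).image Fin.val = range (s ^ 3) := by
          ext x
          simp only [mem_image, mem_filter, mem_univ, true_and, mem_range]
          constructor
          · rintro ⟨v, hv, rfl⟩; exact hv
          · intro hx; exact ⟨⟨x, by omega⟩, hx, rfl⟩
        have h2 := congrArg Finset.card h1
        rwa [card_range, card_image_of_injective _ Fin.val_injective] at h2
      obtain ⟨e, he1, he2, he3⟩ := hf2 S hScard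
      have hin : ∀ x : Finset (Fin N), x.card = 2 → x ⊆ S → x ∈ copyEdges (pad (s ^ 4) (s ^ 3)) φ := by
        intro x hx1 hx2
        obtain ⟨a, b, hab, rfl⟩ := card_eq_two.1 hx1
        have ha := hx2 (mem_insert_self a {b})
        have hb := hx2 (mem_insert_of_mem (mem_singleton_self b))
        rw [hS, mem_image] at ha hb
        obtain ⟨u, hu, rfl⟩ := ha
        obtain ⟨v, hv, rfl⟩ := hb
        rw [mem_filter] at hu hv
        exact ⟨u, v, ⟨fun h => hab (by rw [h]), Or.inl ⟨hu.2, hv.2⟩⟩, rfl⟩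
      exact hfree e (hin e he1 he2) (hin _ (hf1 e he1).1 he3)
    · -- there is no copy at all, but there is a disjoint map
      have hex : ∃ f : Finset (Fin N) → Finset (Fin N), IsDisjointMap f := by
        have h1 : ∀ e : Finset (Fin N), ∃ x : Finset (Fin N), e.card = 2 → x.card = 2 ∧ Disjoint e x := by
          intro e
          by_cases he : e.card = 2
          · have h2 : 2 ≤ (univ \ e).card := by
              rw [card_sdiff_of_subset (subset_univ e), card_univ, Fintype.card_fin, he]; omega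
            obtain ⟨x, hx1, hx2⟩ := exists_subset_card_eq h2
            refine ⟨x, fun _ => ⟨hx2, ?_⟩⟩
            rw [disjoint_left]
            intro y hy hy2
            exact (mem_sdiff.1 (hx1 hy2)).2 hy
          · exact ⟨∅, fun h => absurd h he⟩
        choose f hf using h1
        exact ⟨f, hf⟩
      obtain ⟨f, hf⟩ := hex
      obtain ⟨φ, hφ, _⟩ := hgood f hf
      have := Fintype.card_le_of_injective φ hφ
      rw [Fintype.card_fin, Fintype.card_fin] at this
      omega
  have hmem : g0 (pad (s ^ 4) (s ^ 3)) ∈ {N | 4 ≤ N ∧ Good (pad (s ^ 4) (s ^ 3)) N} := by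
    refine Nat.sInf_mem ⟨8 * (s ^ 4) ^ 2, ?_, good_large (by omega) _⟩
    have : 1 ≤ (s ^ 4) ^ 2 := Nat.one_le_pow _ _ (by omega)
    show 4 ≤ 8 * (s ^ 4) ^ 2
    omega
  have hlow := hbig _ hmem.1 hmem.2
  refine lt_of_le_of_lt ?_ hlow
  -- the upper bound
  have hs0 : (0 : ℝ) < s := by
    have : 0 < s := by omega
    exact_mod_cast this
  have hs1' : (1 : ℝ) ≤ s := by
    have : 1 ≤ s := by omega
    exact_mod_cast this
  have hsqrt : √((s ^ 4 : ℕ) : ℝ) = (s : ℝ) ^ 2 := by
    push_cast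
    rw [show (s : ℝ) ^ 4 = ((s : ℝ) ^ 2) ^ 2 by ring]
    exact Real.sqrt_sq (by positivity)
  have hm : ((pad (s ^ 4) (s ^ 3)).edgeSet.ncard : ℝ) ≤ (s : ℝ) ^ 6 + (s : ℝ) ^ 4 := by
    have h1 := pad_edges (s ^ 4) (s ^ 3) (by omega)
    have h2 : ((pad (s ^ 4) (s ^ 3)).edgeSet.ncard : ℝ) ≤ (((s ^ 3) ^ 2 + s ^ 4 : ℕ) : ℝ) := by
      exact_mod_cast h1
    refine h2.trans (le_of_eq ?_)
    push_cast; ring
  set m : ℝ := ((pad (s ^ 4) (s ^ 3)).edgeSet.ncard : ℝ) with hmdef
  have hm0 : 0 ≤ m := by rw [hmdef]; positivity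
  rw [hsqrt]
  have hX0 : 0 ≤ m / (s : ℝ) ^ 2 + ((s ^ 4 : ℕ) : ℝ) := by positivity
  have hX : m / (s : ℝ) ^ 2 + ((s ^ 4 : ℕ) : ℝ) ≤ 3 * (s : ℝ) ^ 4 := by
    have h1 : m / (s : ℝ) ^ 2 ≤ (s : ℝ) ^ 4 + (s : ℝ) ^ 2 := by
      rw [div_le_iff₀ (by positivity)]
      calc m ≤ (s : ℝ) ^ 6 + (s : ℝ) ^ 4 := hm
        _ = ((s : ℝ) ^ 4 + (s : ℝ) ^ 2) * (s : ℝ) ^ 2 := by ring
    have h2 : (s : ℝ) ^ 2 ≤ (s : ℝ) ^ 4 := pow_le_pow_right₀ hs1' (by norm_num)
    push_cast
    linarith
  calc C * (m / (s : ℝ) ^ 2 + ((s ^ 4 : ℕ) : ℝ))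
      ≤ (K / 3) * (m / (s : ℝ) ^ 2 + ((s ^ 4 : ℕ) : ℝ)) :=
        mul_le_mul_of_nonneg_right (by linarith) hX0
    _ ≤ (K / 3) * (3 * (s : ℝ) ^ 4) := mul_le_mul_of_nonneg_left hX (by linarith)
    _ = K * (s : ℝ) ^ 4 := by ring

end Pool.Agent.Results.MP_48292c_co.FailsForConnected
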